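import Mathlib

/-!
# Stormer's lemma on the Pell equation and consecutive integers

`stormer`: a proper power of the fundamental solution of `x ^ 2 - d y ^ 2 = 1` has a `y` with a
prime factor whose square does not divide `d`.  Consequence: there is an injection
`x ↦ Dof x` from the positive integers to the positive integers with
`Dof x ≤ rad (x (x + 1)) ^ 3`.
-/

set_option autoImplicit false

namespace Pool.Agent.H96R

open Pell

lemma pow_coords {d : ℤ} (hd : 0 ≤ d) (b : Solution₁ d) (hx : 0 ≤ b.x) (l : ℕ) :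
    ∃ P Q : ℤ, 0 ≤ P ∧ 0 ≤ Q ∧ (b ^ (l + 1)).x = b.x ^ (l + 1) + d * P ∧
      (b ^ (l + 1)).y = b.y * ((l + 1) * b.x ^ l + d * Q) := by
  induction l with
  | zero => exact ⟨0, 0, le_rfl, le_rfl, by simp, by simp⟩
  | succ l ih =>
    obtain ⟨P, Q, hP, hQ, h1, h2⟩ := ih
    refine ⟨P * b.x + b.y ^ 2 * ((l + 1) * b.x ^ l + d * Q), P + Q * b.x, by positivity,
      by positivity, ?_, ?_⟩
    · rw [pow_succ b (l + 1), Solution₁.x_mul, h1, h2]
      ring
    · rw [pow_succ b (l + 1), Solution₁.y_mul, h1, h2]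
      push_cast
      ring

lemma not_dvd_x {d : ℤ} (b : Solution₁ d) {p : ℕ} (hp : p.Prime) (hpd : (p : ℤ) ∣ d) :
    ¬ (p : ℤ) ∣ b.x := by
  intro h
  have h1 := b.prop
  have h2 : (p : ℤ) ∣ b.x ^ 2 - d * b.y ^ 2 :=
    dvd_sub (h.trans (dvd_pow_self _ (by norm_num))) (hpd.mul_right _)
  rw [h1] at h2
  have h3 := Int.natCast_dvd_natCast.mp (by simpa using h2 : ((p : ℕ) : ℤ) ∣ ((1 : ℕ) : ℤ))
  exact hp.one_lt.ne' (Nat.dvd_one.mp h3)

theorem stormer {d : ℤ} {a : Solution₁ d} (h : IsFundamental a) (k : ℕ) (hk : 1 < k) :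
    ∃ p : ℕ, p.Prime ∧ (p : ℤ) ∣ (a ^ k).y ∧ ¬ (p : ℤ) ^ 2 ∣ d := by
  by_contra hcon
  push Not at hcon
  have hd := h.d_pos
  set q := k.minFac with hq
  have hqp : q.Prime := Nat.minFac_prime (by omega)
  obtain ⟨m, hm⟩ : q ∣ k := Nat.minFac_dvd k
  have hm1 : 1 ≤ m := by
    rcases Nat.eq_zero_or_pos m with h0 | h0
    · rw [h0] at hm; omega
    · exact h0
  obtain ⟨m', rfl⟩ : ∃ m', m = m' + 1 := ⟨m - 1, by omega⟩
  set b := a ^ (m' + 1) with hb
  have hbx : 0 < b.x := Solution₁.x_pow_pos h.x_pos _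
  have hby : 0 < b.y := Solution₁.y_pow_succ_pos h.x_pos h.2.1 _
  have hbx1 : 1 < b.x := by
    have h1 := b.prop_x
    have h2 : 0 < d * b.y ^ 2 := by positivity
    nlinarith
  obtain ⟨l, hl⟩ : ∃ l, q = l + 1 := ⟨q - 1, by have := hqp.one_lt; omega⟩
  have hl1 : 1 ≤ l := by have := hqp.one_lt; omega
  obtain ⟨P, Q, _, hQ, _, h2⟩ := pow_coords hd.le b hbx.le l
  have hak : a ^ k = b ^ (l + 1) := by
    rw [hb, ← pow_mul, hm, hl, Nat.mul_comm]
  set Z : ℤ := (l + 1) * b.x ^ l + d * Q with hZ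
  have hZy : Z ∣ (a ^ k).y := by rw [hak, h2]; exact Dvd.intro_left _ rfl
  have hqZ : ((q : ℕ) : ℤ) = l + 1 := by rw [hl]; push_cast; rfl
  have hbig : 2 * (q : ℤ) ≤ Z := by
    rw [hqZ, hZ]
    have h3 : (2 : ℤ) ≤ b.x ^ l := by
      calc (2 : ℤ) ≤ b.x := hbx1
        _ ≤ b.x ^ l := le_self_pow₀ hbx1.le (by omega)
    have h4 : 0 ≤ d * Q := by positivity
    nlinarith
  have hZ0 : 0 < Z := by
    have : (0 : ℤ) < q := by exact_mod_cast hqp.pos
    linarith
  obtain ⟨Z', hZ'⟩ := Int.eq_ofNat_of_zero_le hZ0.le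
  -- divisibility facts
  have hfact : ∀ p : ℕ, p.Prime → p ∣ Z' → (p : ℤ) ^ 2 ∣ d := by
    intro p hp hpZ
    refine hcon p hp (dvd_trans ?_ hZy)
    rw [hZ']
    exact Int.natCast_dvd_natCast.mpr hpZ
  have honly : ∀ {p : ℕ}, p.Prime → p ∣ Z' → p = q := by
    intro p hp hpZ
    have h3 := hfact p hp hpZ
    have h4 : (p : ℤ) ∣ d := (dvd_pow_self (p : ℤ) (by norm_num)).trans h3
    have h5 : (p : ℤ) ∣ Z := by rw [hZ']; exact Int.natCast_dvd_natCast.mpr hpZ
    have h6 : (p : ℤ) ∣ (l + 1) * b.x ^ l := by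
      rw [hZ] at h5
      exact (dvd_add_left (h4.mul_right Q)).mp h5
    have hpp : Prime (p : ℤ) := Nat.prime_iff_prime_int.mp hp
    rcases hpp.dvd_or_dvd h6 with h7 | h7
    · rw [← hqZ] at h7
      exact (Nat.prime_dvd_prime_iff_eq hp hqp).mp (Int.natCast_dvd_natCast.mp h7)
    · exact absurd (hpp.dvd_of_dvd_pow h7) (not_dvd_x b hp h4)
  have hZ'0 : Z' ≠ 0 := by rintro rfl; rw [hZ'] at hZ0; simp at hZ0
  have hpow := Nat.eq_prime_pow_of_unique_prime_dvd hZ'0 (fun {d} hd hd' => honly hd hd')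
  set e := Z'.primeFactorsList.length with he
  have he1 : e ≤ 1 := by
    by_contra hcon'
    push Not at hcon'
    have h3 : q ^ 2 ∣ Z' := by rw [hpow]; exact pow_dvd_pow _ hcon'
    have h4 : q ∣ Z' := (dvd_pow_self q (by norm_num)).trans h3
    have h5 := hfact q hqp h4
    have h6 : ((q : ℕ) : ℤ) ^ 2 ∣ Z := by
      rw [hZ']; exact_mod_cast Int.natCast_dvd_natCast.mpr h3
    have h7 : ((q : ℕ) : ℤ) ^ 2 ∣ (l + 1) * b.x ^ l := by
      rw [hZ] at h6
      exact (dvd_add_left (h5.mul_right Q)).mp h6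
    rw [← hqZ, pow_two] at h7
    have hq0 : ((q : ℕ) : ℤ) ≠ 0 := by exact_mod_cast hqp.pos.ne'
    have h8 := (mul_dvd_mul_iff_left hq0).mp h7
    have hpp : Prime (q : ℤ) := Nat.prime_iff_prime_int.mp hqp
    exact not_dvd_x b hqp ((dvd_pow_self (q : ℤ) (by norm_num)).trans h5) (hpp.dvd_of_dvd_pow h8)
  have hle : Z' ≤ q := by
    rw [hpow]
    calc q ^ e ≤ q ^ 1 := Nat.pow_le_pow_right hqp.pos he1
      _ = q := pow_one q
  have h9 : Z ≤ q := by rw [hZ']; exact_mod_cast hle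
  have : (0 : ℤ) < q := by exact_mod_cast hqp.pos
  linarith

theorem pell_unique {d : ℤ} {a a' : Solution₁ d} (hx : 1 < a.x) (hy : 0 < a.y) (hx' : 1 < a'.x)
    (hy' : 0 < a'.y) (H : ∀ p : ℕ, p.Prime → (p : ℤ) ∣ a.y → (p : ℤ) ^ 2 ∣ d)
    (H' : ∀ p : ℕ, p.Prime → (p : ℤ) ∣ a'.y → (p : ℤ) ^ 2 ∣ d) : a = a' := by
  have hd := Solution₁.d_pos_of_one_lt_x hx
  have hsq := Solution₁.d_nonsquare_of_one_lt_x hx
  obtain ⟨a₁, h₁⟩ := IsFundamental.exists_of_not_isSquare hd hsq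
  have key : ∀ c : Solution₁ d, 1 < c.x → 0 < c.y →
      (∀ p : ℕ, p.Prime → (p : ℤ) ∣ c.y → (p : ℤ) ^ 2 ∣ d) → c = a₁ := by
    intro c hcx hcy hc
    obtain ⟨k, hk⟩ := h₁.eq_pow_of_nonneg (by linarith : 0 < c.x) hcy.le
    by_cases hk1 : 1 < k
    · obtain ⟨p, hp, h2, h3⟩ := stormer h₁ k hk1
      rw [← hk] at h2
      exact absurd (hc p hp h2) h3
    · have hk2 : k = 0 ∨ k = 1 := by omega
      rcases hk2 with rfl | rfl
      · rw [pow_zero] at hk
        rw [hk] at hcy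
        simp at hcy
      · rw [hk, pow_one]
  rw [key a hx hy H, key a' hx' hy' H']

/-- the radical -/
def rad (N : ℕ) : ℕ := ∏ p ∈ N.primeFactors, p

lemma rad_pos (N : ℕ) : 0 < rad N := Finset.prod_pos fun _ hp => (Nat.prime_of_mem_primeFactors hp).pos

lemma exists_DY (N : ℕ) (hN : 0 < N) : ∃ D Y : ℕ, 0 < D ∧ 0 < Y ∧ N = D * Y ^ 2 ∧
    (∀ p : ℕ, p.Prime → p ∣ Y → p ^ 2 ∣ D) ∧ D ∣ rad N ^ 3 := by
  induction N using Nat.recOnPosPrimePosCoprime with
  | zero => omega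
  | one => exact ⟨1, 1, by norm_num, by norm_num, by norm_num, fun p hp h => by
      have := Nat.dvd_one.mp h
      exact absurd this hp.one_lt.ne', by norm_num⟩
  | prime_pow p n hp hn =>
    have hrad : rad (p ^ n) = p := by
      unfold rad
      rw [Nat.primeFactors_prime_pow (by omega) hp]
      simp
    rw [hrad]
    have hpp := hp.pos
    rcases Nat.lt_or_ge n 2 with h1 | h2
    · have : n = 1 := by omega
      subst this
      exact ⟨p, 1, hpp, by norm_num, by ring, fun q hq h => by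
        have := Nat.dvd_one.mp h
        exact absurd this hq.one_lt.ne', dvd_pow_self p (by norm_num)⟩
    · rcases Nat.even_or_odd' n with ⟨j, hj | hj⟩
      · refine ⟨p ^ 2, p ^ (j - 1), by positivity, by positivity, ?_, fun q hq h => ?_,
          pow_dvd_pow p (by norm_num)⟩
        · rw [← pow_mul, ← pow_add]; congr 1; omega
        · have := (Nat.prime_dvd_prime_iff_eq hq hp).mp (hq.dvd_of_dvd_pow h)
          rw [this]
      · refine ⟨p ^ 3, p ^ (j - 1), by positivity, by positivity, ?_, fun q hq h => ?_,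
          dvd_rfl⟩
        · rw [← pow_mul, ← pow_add]; congr 1; omega
        · have := (Nat.prime_dvd_prime_iff_eq hq hp).mp (hq.dvd_of_dvd_pow h)
          rw [this]
          exact pow_dvd_pow p (by norm_num)
  | coprime a b ha hb hab iha ihb =>
    obtain ⟨D₁, Y₁, h1, h2, h3, h4, h5⟩ := iha (by omega)
    obtain ⟨D₂, Y₂, k1, k2, k3, k4, k5⟩ := ihb (by omega)
    refine ⟨D₁ * D₂, Y₁ * Y₂, by positivity, by positivity, ?_, fun p hp h => ?_, ?_⟩
    · calc a * b = (D₁ * Y₁ ^ 2) * (D₂ * Y₂ ^ 2) := by rw [← h3, ← k3]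
        _ = _ := by ring
    · rcases hp.dvd_mul.mp h with h' | h'
      · exact (h4 p hp h').mul_right _
      · exact (k4 p hp h').mul_left _
    · have : rad (a * b) = rad a * rad b := by
        unfold rad
        rw [hab.primeFactors_mul, Finset.prod_union hab.disjoint_primeFactors]
      rw [this, mul_pow]
      exact Nat.mul_dvd_mul h5 k5

lemma exists_Dof (x : ℕ) (hx : 0 < x) : ∃ D Y : ℕ, 0 < D ∧ 0 < Y ∧
    4 * (x * (x + 1)) = D * Y ^ 2 ∧
    (∀ p : ℕ, p.Prime → p ∣ Y → p ^ 2 ∣ D) ∧ D ≤ rad (x * (x + 1)) ^ 3 := by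
  have hpos : 0 < x * (x + 1) := by positivity
  obtain ⟨D, Y, h1, h2, h3, h4, h5⟩ := exists_DY (4 * (x * (x + 1))) (by positivity)
  refine ⟨D, Y, h1, h2, h3, h4, ?_⟩
  have hrad : rad (4 * (x * (x + 1))) = rad (x * (x + 1)) := by
    unfold rad
    congr 1
    ext p
    rw [Nat.mem_primeFactors, Nat.mem_primeFactors]
    constructor
    · rintro ⟨hp, hd, _⟩
      refine ⟨hp, ?_, hpos.ne'⟩
      rcases hp.dvd_mul.mp hd with h | h
      · have h2 : p ∣ 2 := hp.dvd_of_dvd_pow (n := 2) (by norm_num; exact h)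
        have h3 : 2 ∣ x * (x + 1) := (Nat.even_mul_succ_self x).two_dvd
        exact h2.trans h3
      · exact h
    · rintro ⟨hp, hd, _⟩
      exact ⟨hp, hd.mul_left 4, by positivity⟩
  rw [hrad] at h5
  exact Nat.le_of_dvd (pow_pos (rad_pos _) 3) h5

/-- an injection with small values -/
noncomputable def Dof (x : ℕ) : ℕ := if h : 0 < x then (exists_Dof x h).choose else 0

lemma Dof_le {x : ℕ} (hx : 0 < x) : Dof x ≤ rad (x * (x + 1)) ^ 3 := by
  unfold Dof
  rw [dif_pos hx]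
  obtain ⟨_, _, _, _, _, h⟩ := (exists_Dof x hx).choose_spec
  exact h

lemma Dof_pos {x : ℕ} (hx : 0 < x) : 0 < Dof x := by
  unfold Dof
  rw [dif_pos hx]
  obtain ⟨_, h, _⟩ := (exists_Dof x hx).choose_spec
  exact h

lemma Dof_inj {x x' : ℕ} (hx : 0 < x) (hx' : 0 < x') (h : Dof x = Dof x') : x = x' := by
  have e1 : Dof x = (exists_Dof x hx).choose := by unfold Dof; rw [dif_pos hx]
  have e2 : Dof x' = (exists_Dof x' hx').choose := by unfold Dof; rw [dif_pos hx']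
  obtain ⟨Y, _, hY, h3, h4, _⟩ := (exists_Dof x hx).choose_spec
  obtain ⟨Y', _, hY', h3', h4', _⟩ := (exists_Dof x' hx').choose_spec
  rw [← e1] at h3 h4
  rw [← e2, ← h] at h3' h4'
  set D := Dof x with hD
  have hp1 : (2 * (x : ℤ) + 1) ^ 2 - D * (Y : ℤ) ^ 2 = 1 := by
    have : (4 * ((x : ℤ) * (x + 1))) = D * (Y : ℤ) ^ 2 := by exact_mod_cast h3
    rw [← this]; ring
  have hp2 : (2 * (x' : ℤ) + 1) ^ 2 - D * (Y' : ℤ) ^ 2 = 1 := by
    have : (4 * ((x' : ℤ) * (x' + 1))) = D * (Y' : ℤ) ^ 2 := by exact_mod_cast h3'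
    rw [← this]; ring
  have hconv : ∀ W : ℕ, (∀ p : ℕ, p.Prime → p ∣ W → p ^ 2 ∣ D) →
      ∀ p : ℕ, p.Prime → (p : ℤ) ∣ (W : ℤ) → (p : ℤ) ^ 2 ∣ ((D : ℕ) : ℤ) := by
    intro W hW p hp hpW
    have := hW p hp (Int.natCast_dvd_natCast.mp hpW)
    exact_mod_cast Int.natCast_dvd_natCast.mpr this
  have h5 := pell_unique (a := Solution₁.mk _ _ hp1) (a' := Solution₁.mk _ _ hp2)
    (by rw [Solution₁.x_mk]; have : (0 : ℤ) < x := by exact_mod_cast hx
        linarith)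
    (by rw [Solution₁.y_mk]; exact_mod_cast hY)
    (by rw [Solution₁.x_mk]; have : (0 : ℤ) < x' := by exact_mod_cast hx'
        linarith)
    (by rw [Solution₁.y_mk]; exact_mod_cast hY')
    (by rw [Solution₁.y_mk]; exact hconv Y h4)
    (by rw [Solution₁.y_mk]; exact hconv Y' h4')
  have h6 := congrArg Solution₁.x h5
  rw [Solution₁.x_mk, Solution₁.x_mk] at h6
  have h7 : (x : ℤ) = x' := by linarith
  exact_mod_cast h7

end Pool.Agent.H96R
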