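import Pool.Agent.H96R.Final
import Pool.Agent.H96R.Stormer

/-!
# Failure of the translation property for small deletion probabilities
-/

set_option autoImplicit false

namespace Pool.Agent.H96R

open Finset Classical MeasureTheory ProbabilityTheory

/-- deterministic criterion for the failure of the translation property -/
lemma not_translation {B : Set ℕ} (hB : ∀ t : ℕ, ∃ p ∈ B, p.Prime ∧ t < p) {n : ℕ} (hn : 1 ≤ n)
    (hsmall : ∀ b ∈ B, n < b) {T₀ : ℕ}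
    (hT : ∀ t ≥ T₀, ∃ i, 1 ≤ i ∧ i ≤ n ∧ ∃ b ∈ B, b ∣ t + i) :
    ¬ TranslationProperty (avoiders B) := by
  intro h
  have hmem : ∀ a, 1 ≤ a → a ≤ n → a ∈ avoiders B := by
    intro a ha1 han
    refine ⟨ha1, fun b hb hd => ?_⟩
    have h1 := hsmall b hb
    have h2 := Nat.le_of_dvd ha1 hd
    omega
  choose t ht1 ht using fun m : ℕ => h (m + n) (by omega)
  have htlt : ∀ m, t m < T₀ := by
    intro m
    by_contra hcon
    push Not at hcon
    obtain ⟨i, hi1, hin, b, hb, hd⟩ := hT (t m) hcon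
    have h1 := (ht m i hi1 (by omega)).mp (hmem i hi1 hin)
    exact h1.2 b hb (by rw [Nat.add_comm]; exact hd)
  obtain ⟨y, hy⟩ := Finite.exists_infinite_fiber (fun m => (⟨t m, htlt m⟩ : Fin T₀))
  have hy' : ((fun m => (⟨t m, htlt m⟩ : Fin T₀)) ⁻¹' {y}).Infinite := Set.infinite_coe_iff.mp hy
  have hall : ∀ a, 1 ≤ a → (a ∈ avoiders B ↔ a + y ∈ avoiders B) := by
    intro a ha
    obtain ⟨m, hm, hma⟩ := hy'.exists_gt a
    have h1 : t m = y := by
      have : (⟨t m, htlt m⟩ : Fin T₀) = y := hm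
      exact congrArg Fin.val this
    rw [← h1]
    exact ht m a ha (by omega)
  have hy1 : 1 ≤ (y : ℕ) := by
    obtain ⟨m, hm, _⟩ := hy'.exists_gt 0
    have h1 : t m = y := by
      have : (⟨t m, htlt m⟩ : Fin T₀) = y := hm
      exact congrArg Fin.val this
    rw [← h1]
    exact ht1 m
  have hprog : ∀ j : ℕ, (y : ℕ) * j + 1 ∈ avoiders B := by
    intro j
    induction j with
    | zero => simpa using hmem 1 le_rfl hn
    | succ j ih =>
      have h1 := (hall ((y : ℕ) * j + 1) (by omega)).mp ih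
      have h2 : (y : ℕ) * (j + 1) + 1 = (y : ℕ) * j + 1 + y := by ring
      rw [h2]
      exact h1
  obtain ⟨p, hpB, hp, hpy⟩ := hB y
  have hcop : (y : ℕ).Coprime p := by
    refine ((Nat.Prime.coprime_iff_not_dvd hp).mpr ?_).symm
    intro hd
    have := Nat.le_of_dvd (by omega) hd
    omega
  obtain ⟨r, _, hr⟩ := Pool.Agent.H14Trans.exists_res (a := 1) hp.pos hcop
  exact (hprog r).2 p hpB hr

/-- primes above `n` dividing one of `t + 1, …, t + n` -/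
noncomputable def Ft (n t : ℕ) : Finset ℕ :=
  (Icc (n + 1) (t + n)).filter (fun p => p.Prime ∧ ∃ i ∈ Icc 1 n, p ∣ t + i)

lemma mem_Ft {n t p : ℕ} : p ∈ Ft n t ↔ n < p ∧ p.Prime ∧ ∃ i, 1 ≤ i ∧ i ≤ n ∧ p ∣ t + i := by
  unfold Ft
  simp only [mem_filter, mem_Icc]
  constructor
  · rintro ⟨⟨h1, _⟩, h2, a, ⟨h3, h4⟩, h5⟩
    exact ⟨h1, h2, a, h3, h4, h5⟩
  · rintro ⟨h1, h2, a, h3, h4, h5⟩
    exact ⟨⟨h1, (Nat.le_of_dvd (by omega) h5).trans (by omega)⟩, h2, a, ⟨h3, h4⟩, h5⟩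

lemma prod_le_sum_pow {h : ℕ} (hh : 1 ≤ h) (P : ℕ → ℝ) (hP : ∀ j, 0 ≤ P j) :
    ∏ j ∈ range h, P j ≤ ∑ j ∈ range h, P j ^ h := by
  obtain ⟨j₀, hj₀, hmax⟩ := exists_max_image (range h) P ⟨0, mem_range.mpr (by omega)⟩
  calc ∏ j ∈ range h, P j ≤ ∏ _j ∈ range h, P j₀ :=
        prod_le_prod (fun j _ => hP j) (fun j hj => hmax j hj)
    _ = P j₀ ^ h := by rw [prod_const, card_range]
    _ ≤ ∑ j ∈ range h, P j ^ h :=
        single_le_sum (f := fun j => P j ^ h) (fun j _ => pow_nonneg (hP j) _) hj₀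

/-- the part of `Ft` coming from the `j`-th pair -/
noncomputable def Fj (n t j : ℕ) : Finset ℕ :=
  (Ft n t).filter (fun p => p ∣ (t + 2 * j + 1) * (t + 2 * j + 2))

lemma Ft_eq {h t : ℕ} : Ft (2 * h) t = (range h).biUnion (Fj (2 * h) t) := by
  ext p
  simp only [mem_biUnion, mem_range, Fj, mem_filter]
  constructor
  · intro hp
    obtain ⟨_, hpp, i, hi1, hi2, hd⟩ := mem_Ft.mp hp
    refine ⟨(i - 1) / 2, by omega, hp, ?_⟩
    rcases Nat.even_or_odd' i with ⟨k, hk | hk⟩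
    · have e : t + 2 * ((i - 1) / 2) + 2 = t + i := by omega
      rw [e]
      exact hd.mul_left _
    · have e : t + 2 * ((i - 1) / 2) + 1 = t + i := by omega
      rw [e]
      exact hd.mul_right _
  · rintro ⟨_, _, hp, _⟩
    exact hp

lemma Fj_disj {h t : ℕ} : ((range h : Finset ℕ) : Set ℕ).PairwiseDisjoint (Fj (2 * h) t) := by
  intro j hj j' hj' hne
  simp only [coe_range, Set.mem_Iio] at hj hj'
  change Disjoint _ _
  rw [disjoint_left]
  intro p hp hp'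
  rw [Fj, mem_filter] at hp hp'
  obtain ⟨hlt, hpp, _⟩ := mem_Ft.mp hp.1
  have key : ∀ i i' : ℕ, i < i' → i' ≤ 2 * h → p ∣ t + i → ¬ p ∣ t + i' := by
    intro i i' hii hi' h1 h2
    have h3 : p ∣ (t + i') - (t + i) := Nat.dvd_sub h2 h1
    have h4 := Nat.le_of_dvd (by omega) h3
    omega
  have e1 : ∃ i, (i = 2 * j + 1 ∨ i = 2 * j + 2) ∧ p ∣ t + i := by
    rcases hpp.dvd_mul.mp hp.2 with h1 | h1
    · exact ⟨2 * j + 1, Or.inl rfl, by rw [← Nat.add_assoc]; exact h1⟩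
    · exact ⟨2 * j + 2, Or.inr rfl, by rw [← Nat.add_assoc]; exact h1⟩
  have e2 : ∃ i, (i = 2 * j' + 1 ∨ i = 2 * j' + 2) ∧ p ∣ t + i := by
    rcases hpp.dvd_mul.mp hp'.2 with h1 | h1
    · exact ⟨2 * j' + 1, Or.inl rfl, by rw [← Nat.add_assoc]; exact h1⟩
    · exact ⟨2 * j' + 2, Or.inr rfl, by rw [← Nat.add_assoc]; exact h1⟩
  obtain ⟨i, hi, hdi⟩ := e1
  obtain ⟨i', hi', hdi'⟩ := e2
  rcases lt_or_gt_of_ne (show i ≠ i' by omega) with h1 | h1
  · exact key i i' h1 (by omega) hdi hdi'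
  · exact key i' i h1 (by omega) hdi' hdi

lemma prod_le_prod_of_sub {s t : Finset ℕ} (h : s ⊆ t) (f : ℕ → ℝ) (h0 : ∀ i ∈ s, 0 ≤ f i)
    (h1 : ∀ i ∈ t, i ∉ s → 1 ≤ f i) : ∏ i ∈ s, f i ≤ ∏ i ∈ t, f i := by
  rw [← prod_sdiff h]
  have h2 : (1 : ℝ) ≤ ∏ i ∈ t \ s, f i := by
    calc (1 : ℝ) = ∏ _i ∈ t \ s, (1 : ℝ) := by simp
      _ ≤ ∏ i ∈ t \ s, f i := prod_le_prod (fun _ _ => by norm_num) (fun i hi => by
        rw [mem_sdiff] at hi
        exact h1 i hi.1 hi.2)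
  have h3 : 0 ≤ ∏ i ∈ s, f i := prod_nonneg h0
  nlinarith

/-- one pair: the `h`-th power of the product is at most `C / Dof ^ 2` -/
lemma pair_bound {h n₁ t j : ℕ} {q : ℕ → ℝ} (hq0 : ∀ p, 0 ≤ q p) (hq1 : ∀ p, q p ≤ 1)
    (hq : ∀ p, p.Prime → n₁ ≤ p → q p ^ h * (p : ℝ) ^ 6 ≤ 1) (hn₁ : 2 * h < n₁) (hj : j < h) :
    (∏ p ∈ Fj (2 * h) t j, q p) ^ h ≤
      (∏ p ∈ Icc 1 n₁, (p : ℝ) ^ 6) * (((Dof (t + 2 * j + 1) : ℝ) ^ 2)⁻¹) := by
  set x := t + 2 * j + 1 with hx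
  have hx0 : 0 < x := by omega
  have hD := Dof_le hx0
  have hD0 : (0 : ℝ) < Dof x := by exact_mod_cast Dof_pos hx0
  have hr0 : (0 : ℝ) < rad (x * (x + 1)) := by exact_mod_cast rad_pos _
  have h1 : ((Dof x : ℝ)) ^ 2 ≤ (rad (x * (x + 1)) : ℝ) ^ 6 := by
    have : (Dof x : ℝ) ≤ (rad (x * (x + 1)) : ℝ) ^ 3 := by exact_mod_cast hD
    calc ((Dof x : ℝ)) ^ 2 ≤ ((rad (x * (x + 1)) : ℝ) ^ 3) ^ 2 := by gcongr
      _ = _ := by ring
  have hsub : Fj (2 * h) t j ⊆ (x * (x + 1)).primeFactors := by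
    intro p hp
    rw [Fj, mem_filter] at hp
    rw [Nat.mem_primeFactors]
    exact ⟨(mem_Ft.mp hp.1).2.1, hp.2, by positivity⟩
  have h2 : (∏ p ∈ Fj (2 * h) t j, q p) ^ h * (rad (x * (x + 1)) : ℝ) ^ 6 ≤
      ∏ p ∈ Icc 1 n₁, (p : ℝ) ^ 6 := by
    have e1 : (∏ p ∈ Fj (2 * h) t j, q p) ^ h * (rad (x * (x + 1)) : ℝ) ^ 6 =
        (∏ p ∈ Fj (2 * h) t j, (q p ^ h * (p : ℝ) ^ 6)) *
          ∏ p ∈ (x * (x + 1)).primeFactors \ Fj (2 * h) t j, (p : ℝ) ^ 6 := by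
      unfold rad
      push_cast
      rw [← prod_pow, ← prod_pow, ← prod_sdiff hsub, prod_mul_distrib]
      ring
    rw [e1]
    have e2 : ∏ p ∈ Fj (2 * h) t j, (q p ^ h * (p : ℝ) ^ 6) ≤
        ∏ p ∈ (Fj (2 * h) t j).filter (fun p => p < n₁), (p : ℝ) ^ 6 := by
      rw [prod_filter]
      refine prod_le_prod (fun p _ => by have := hq0 p; positivity) (fun p hp => ?_)
      split_ifs with hlt
      · have : q p ^ h ≤ 1 := pow_le_one₀ (hq0 p) (hq1 p)
        have h6 : (0 : ℝ) ≤ (p : ℝ) ^ 6 := by positivity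
        nlinarith
      · rw [Fj, mem_filter] at hp
        exact hq p (mem_Ft.mp hp.1).2.1 (by omega)
    have e3 : (∏ p ∈ (Fj (2 * h) t j).filter (fun p => p < n₁), (p : ℝ) ^ 6) *
          ∏ p ∈ (x * (x + 1)).primeFactors \ Fj (2 * h) t j, (p : ℝ) ^ 6 ≤
        ∏ p ∈ Icc 1 n₁, (p : ℝ) ^ 6 := by
      rw [← prod_union]
      · refine prod_le_prod_of_sub ?_ _ (fun p _ => by positivity)
          (fun p hp _ => ?_)
        · intro p hp
          rw [mem_union, mem_filter, mem_sdiff] at hp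
          rw [mem_Icc]
          rcases hp with hp | hp
          · have h7 := hp.1
            rw [Fj, mem_filter] at h7
            have := (mem_Ft.mp h7.1).1
            omega
          · obtain ⟨hp1, hp2⟩ := hp
            have hpp := Nat.prime_of_mem_primeFactors hp1
            refine ⟨hpp.pos, ?_⟩
            by_contra hcon
            push Not at hcon
            apply hp2
            have hd := Nat.dvd_of_mem_primeFactors hp1
            rw [Fj, mem_filter]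
            refine ⟨?_, hd⟩
            rw [mem_Ft]
            refine ⟨by omega, hpp, ?_⟩
            rcases hpp.dvd_mul.mp hd with h3 | h3
            · exact ⟨2 * j + 1, by omega, by omega, by rw [← Nat.add_assoc]; exact h3⟩
            · exact ⟨2 * j + 2, by omega, by omega, by rw [← Nat.add_assoc]; exact h3⟩
        · rw [mem_Icc] at hp
          exact one_le_pow₀ (by exact_mod_cast hp.1)
      · rw [disjoint_left]
        intro p hp hp'
        rw [mem_sdiff] at hp'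
        exact hp'.2 (mem_filter.mp hp).1
    refine le_trans ?_ e3
    gcongr
  rw [← div_eq_mul_inv, le_div_iff₀ (by positivity)]
  refine le_trans ?_ h2
  have : 0 ≤ (∏ p ∈ Fj (2 * h) t j, q p) ^ h := pow_nonneg (prod_nonneg fun p _ => hq0 p) _
  gcongr

lemma summable_Dof (j : ℕ) : Summable (fun t : ℕ => (((Dof (t + 2 * j + 1) : ℝ) ^ 2)⁻¹)) := by
  have h1 : Summable (fun m : ℕ => (((m : ℝ) ^ 2)⁻¹)) := Real.summable_nat_pow_inv.mpr (by norm_num)
  have hinj : Function.Injective (fun t : ℕ => Dof (t + 2 * j + 1)) := by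
    intro t t' h
    have := Dof_inj (by omega) (by omega) h
    omega
  exact h1.comp_injective hinj

/-- Failure of the translation property: core form. -/
theorem fail_core {Ω : Type*} [MeasurableSpace Ω] {μ : Measure Ω} [IsProbabilityMeasure μ]
    {X : ℕ → Set Ω} {δ : ℝ} (hδ : 0 < δ) {h : ℕ} (hh1 : 1 ≤ h) (hhδ : 6 ≤ δ * h)
    (hmiss : ∀ F : Finset ℕ, (∀ p ∈ F, p.Prime) → μ (Miss X F) = ∏ p ∈ F, μ (X p)ᶜ)
    (hp : ∃ p₀ : ℕ, ∀ p : ℕ, p.Prime → p₀ ≤ p → μ.real (X p)ᶜ ≤ (p : ℝ) ^ (-δ)) :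
    ∀ᵐ ω ∂μ, (∀ p : ℕ, p.Prime → p ≤ 2 * h → ω ∉ X p) →
      ¬ TranslationProperty (avoiders {p | p.Prime ∧ ω ∈ X p}) := by
  obtain ⟨p₀, hp₀⟩ := hp
  set q : ℕ → ℝ := fun p => μ.real (X p)ᶜ with hq
  have hq0 : ∀ p, 0 ≤ q p := fun p => measureReal_nonneg
  have hq1 : ∀ p, q p ≤ 1 := fun p => measureReal_le_one
  set n₁ := max p₀ (2 * h + 1) with hn₁
  have hq6 : ∀ p, p.Prime → n₁ ≤ p → q p ^ h * (p : ℝ) ^ 6 ≤ 1 := by
    intro p hp hnp
    have h1 := hp₀ p hp ((le_max_left _ _).trans hnp)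
    have hp0 : (1 : ℝ) ≤ p := by exact_mod_cast hp.one_lt.le
    have h2 : q p ^ h ≤ ((p : ℝ) ^ (-δ)) ^ h := pow_le_pow_left₀ (hq0 p) h1 h
    have h3 : ((p : ℝ) ^ (-δ)) ^ h ≤ (p : ℝ) ^ (-(6 : ℝ)) := by
      rw [← Real.rpow_natCast, ← Real.rpow_mul (by linarith)]
      exact Real.rpow_le_rpow_of_exponent_le hp0 (by linarith)
    have h4 : (p : ℝ) ^ (-(6 : ℝ)) * (p : ℝ) ^ 6 = 1 := by
      rw [Real.rpow_neg (by linarith)]
      have : (p : ℝ) ^ (6 : ℝ) = (p : ℝ) ^ 6 := by exact_mod_cast Real.rpow_natCast (p : ℝ) 6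
      rw [this]
      exact inv_mul_cancel₀ (by positivity)
    calc q p ^ h * (p : ℝ) ^ 6 ≤ (p : ℝ) ^ (-(6 : ℝ)) * (p : ℝ) ^ 6 := by
          gcongr
          exact h2.trans h3
      _ = 1 := h4
  -- the events
  set C : ℝ := ∏ p ∈ Icc 1 n₁, (p : ℝ) ^ 6 with hC
  set g : ℕ → ℝ := fun t => ∑ j ∈ range h, C * (((Dof (t + 2 * j + 1) : ℝ) ^ 2)⁻¹) with hg
  have hgs : Summable g := summable_sum fun j _ => (summable_Dof j).mul_left C
  have hE : ∀ t : ℕ, μ (Miss X (Ft (2 * h) t)) ≤ ENNReal.ofReal (g t) := by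
    intro t
    have h1 : μ (Miss X (Ft (2 * h) t)) = ENNReal.ofReal (∏ p ∈ Ft (2 * h) t, q p) := by
      rw [hmiss _ (fun p hp => (mem_Ft.mp hp).2.1),
        ENNReal.ofReal_prod_of_nonneg (fun p _ => hq0 p)]
      exact prod_congr rfl fun p _ => (ofReal_measureReal (measure_ne_top _ _)).symm
    rw [h1]
    refine ENNReal.ofReal_le_ofReal ?_
    rw [Ft_eq, prod_biUnion Fj_disj]
    refine (prod_le_sum_pow hh1 _ (fun j => prod_nonneg fun p _ => hq0 p)).trans ?_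
    refine sum_le_sum fun j hj => ?_
    exact pair_bound hq0 hq1 hq6 (by omega) (mem_range.mp hj)
  have hsum : ∑' t, μ (Miss X (Ft (2 * h) t)) ≠ ⊤ :=
    ne_top_of_le_ne_top hgs.tsum_ofReal_ne_top (ENNReal.tsum_le_tsum hE)
  have hae1 := ae_eventually_notMem hsum
  -- infinitely many primes in `B`
  choose r hr1 hr2 using fun i : ℕ => Nat.exists_infinite_primes (2 ^ i + p₀)
  have hsum2 : ∑' i, μ (X (r i))ᶜ ≠ ⊤ := by
    have hgeo : Summable (fun i : ℕ => ((2 : ℝ) ^ (-δ)) ^ i) :=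
      summable_geometric_of_lt_one (by positivity)
        (Real.rpow_lt_one_of_one_lt_of_neg (by norm_num) (by linarith))
    refine ne_top_of_le_ne_top hgeo.tsum_ofReal_ne_top (ENNReal.tsum_le_tsum fun i => ?_)
    rw [← ofReal_measureReal (measure_ne_top μ (X (r i))ᶜ)]
    refine ENNReal.ofReal_le_ofReal ?_
    refine (hp₀ (r i) (hr2 i) ((Nat.le_add_left _ _).trans (hr1 i))).trans ?_
    have h1 : ((2 : ℝ) ^ i) ≤ r i := by
      have : 2 ^ i ≤ r i := (Nat.le_add_right _ _).trans (hr1 i)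
      exact_mod_cast this
    calc (r i : ℝ) ^ (-δ) ≤ ((2 : ℝ) ^ i) ^ (-δ) :=
          Real.rpow_le_rpow_of_nonpos (by positivity) h1 (by linarith)
      _ = ((2 : ℝ) ^ (-δ)) ^ i := by
          rw [← Real.rpow_natCast, ← Real.rpow_natCast, ← Real.rpow_mul (by norm_num),
            ← Real.rpow_mul (by norm_num)]
          ring_nf
  have hae2 := ae_eventually_notMem hsum2
  filter_upwards [hae1, hae2] with ω hω1 hω2 hsmall
  obtain ⟨T₀, hT₀⟩ := Filter.eventually_atTop.mp hω1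
  obtain ⟨i₀, hi₀⟩ := Filter.eventually_atTop.mp hω2
  refine not_translation (n := 2 * h) (T₀ := T₀) ?_ (by omega) ?_ ?_
  · intro t
    set i := max i₀ t with hi'
    have h1 := hi₀ i (le_max_left _ _)
    have h2 : ω ∈ X (r i) := by
      by_contra hcon
      exact h1 hcon
    refine ⟨r i, ⟨hr2 i, h2⟩, hr2 i, ?_⟩
    have h3 := hr1 i
    have h4 : i < 2 ^ i := Nat.lt_two_pow_self
    have h5 : t ≤ i := le_max_right _ _
    omega
  · rintro b ⟨hbp, hωb⟩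
    by_contra hcon
    push Not at hcon
    exact hsmall b hbp hcon hωb
  · intro t ht
    have h1 := hT₀ t ht
    simp only [Miss, Set.mem_iInter, not_forall] at h1
    obtain ⟨p, hp, hωp⟩ := h1
    obtain ⟨_, hpp, i, hi1, hi2, hd⟩ := mem_Ft.mp hp
    refine ⟨i, hi1, hi2, p, ⟨hpp, ?_⟩, hd⟩
    by_contra hcon
    exact hωp hcon

/-- Failure of the translation property. -/
theorem random_fail (δ : ℝ) (hδ : 0 < δ) : ∃ n₀ : ℕ, ∀ {Ω : Type*} [MeasurableSpace Ω]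
    (μ : Measure Ω) [IsProbabilityMeasure μ] (X : ℕ → Set Ω), iIndepSet X μ →
    (∃ p₀ : ℕ, ∀ p : ℕ, p.Prime → p₀ ≤ p → μ.real (X p)ᶜ ≤ (p : ℝ) ^ (-δ)) →
    ∀ᵐ ω ∂μ, (∀ p : ℕ, p.Prime → p ≤ n₀ → ω ∉ X p) →
      ¬ TranslationProperty (avoiders {p | p.Prime ∧ ω ∈ X p}) := by
  obtain ⟨h, hh⟩ := exists_nat_gt (6 / δ)
  have hh0 : (0 : ℝ) < h := lt_trans (by positivity) hh
  have hh1 : 1 ≤ h := by
    have : 0 < h := by exact_mod_cast hh0
    omega
  have hhδ : 6 ≤ δ * h := by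
    rw [div_lt_iff₀ hδ] at hh
    linarith
  exact ⟨2 * h, fun μ _ X hi hp => fail_core hδ hh1 hhδ (fun F _ => miss_measure hi F) hp⟩

/-- The same with the events indexed by the primes and an explicit bound. -/
theorem random_fail_sub {Ω : Type*} [MeasurableSpace Ω] {μ : Measure Ω} [IsProbabilityMeasure μ]
    {E : ℕ → Set Ω} (hI : iIndepSet (fun p : ({p | Nat.Prime p} : Set ℕ) => E p) μ)
    {δ : ℝ} (hδ : 0 < δ) {y : ℕ} (hy : 12 / δ + 2 ≤ y)
    (hp : ∃ p₀ : ℕ, ∀ p : ℕ, p.Prime → p₀ ≤ p → μ.real (E p)ᶜ ≤ (p : ℝ) ^ (-δ)) :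
    ∀ᵐ ω ∂μ, (∀ p : ℕ, p.Prime → p ≤ y → ω ∉ E p) →
      ¬ TranslationProperty (avoiders {p | p.Prime ∧ ω ∈ E p}) := by
  set h := ⌈6 / δ⌉₊ with hh
  have hc0 : 0 < 6 / δ := by positivity
  have h1 : 6 / δ ≤ h := Nat.le_ceil _
  have h2 : (h : ℝ) < 6 / δ + 1 := Nat.ceil_lt_add_one hc0.le
  have hh1 : 1 ≤ h := Nat.ceil_pos.mpr hc0
  have hhδ : 6 ≤ δ * h := by
    rw [div_le_iff₀ hδ] at h1
    linarith
  have hhy : 2 * h ≤ y := by
    have : (2 : ℝ) * h ≤ y := by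
      have h3 : 12 / δ = 2 * (6 / δ) := by ring
      linarith
    exact_mod_cast this
  have hmiss : ∀ F : Finset ℕ, (∀ p ∈ F, p.Prime) → μ (Miss E F) = ∏ p ∈ F, μ (E p)ᶜ := by
    intro F hF
    have hI' : iIndep (fun p : ({p | Nat.Prime p} : Set ℕ) =>
        MeasurableSpace.generateFrom {E p}) μ := (iIndepSet_iff_iIndep _ _).mp hI
    have h3 := hI'.meas_biInter (S := F.subtype (· ∈ ({p | Nat.Prime p} : Set ℕ)))
      (s := fun p : ({p | Nat.Prime p} : Set ℕ) => (E p)ᶜ)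
      (fun p _ => (MeasurableSpace.measurableSet_generateFrom (Set.mem_singleton (E p))).compl)
    have h4 : ⋂ p ∈ F.subtype (· ∈ ({p | Nat.Prime p} : Set ℕ)), (E (p : ℕ))ᶜ = Miss E F := by
      ext ω
      simp only [Miss, Set.mem_iInter, mem_subtype]
      constructor
      · intro h5 p hp
        exact h5 ⟨p, hF p hp⟩ hp
      · intro h5 p hp
        exact h5 p hp
    rw [← h4, h3]
    refine Finset.prod_subtype_of_mem (fun p => μ (E p)ᶜ) hF
  filter_upwards [fail_core hδ hh1 hhδ hmiss hp] with ω hω hsmall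
  exact hω fun p hp hpy => hsmall p hp (hpy.trans hhy)

end Pool.Agent.H96R
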