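import Pool.Agent.H96R.Prob

/-!
# Almost every subset of a pairwise coprime set

The statement in terms of `B`-free numbers; moduli equal to `1` are allowed.
-/

set_option autoImplicit false

namespace Pool.Agent.H96R

open MeasureTheory ProbabilityTheory

/-- `A_B`: the positive integers divisible by no element of `B`. -/
def avoiders (B : Set ℕ) : Set ℕ := {m | 0 < m ∧ ∀ b ∈ B, ¬ b ∣ m}

/-- Some `t ≥ 1` satisfies `a ∈ A ↔ a + t ∈ A` for all `1 ≤ a ≤ n`. -/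
def HasTranslate (A : Set ℕ) (n : ℕ) : Prop :=
  ∃ t : ℕ, 1 ≤ t ∧ ∀ a : ℕ, 1 ≤ a → a ≤ n → (a ∈ A ↔ a + t ∈ A)

/-- The translation property. -/
def TranslationProperty (A : Set ℕ) : Prop := ∀ n : ℕ, 1 ≤ n → HasTranslate A n

/-- `B` is a pairwise coprime set of positive integers. -/
def PairwiseCoprime (B : Set ℕ) : Prop :=
  (∀ b ∈ B, 1 ≤ b) ∧ ∀ b ∈ B, ∀ c ∈ B, b ≠ c → Nat.Coprime b c

/-- Almost every random subset of a pairwise coprime set has the translation property if the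
probability of deleting `b` is at least `b ^ (-ε)` for every `ε > 0` and all large `b`. -/
theorem random_subset (B : Set ℕ) (hB : PairwiseCoprime B) {Ω : Type*} [MeasurableSpace Ω]
    (μ : Measure Ω) [IsProbabilityMeasure μ] (X : ℕ → Set Ω) (hX : ∀ b, MeasurableSet (X b))
    (hi : iIndepSet X μ)
    (hp : ∀ ε : ℝ, 0 < ε → ∃ b₀ : ℕ, ∀ b ∈ B, b₀ ≤ b → (b : ℝ) ^ (-ε) ≤ μ.real (X b)ᶜ) :
    ∀ᵐ ω ∂μ, TranslationProperty (avoiders {b | b ∈ B ∧ ω ∈ X b}) := by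
  have h : ∀ n : ℕ, 1 ≤ n → ∀ᵐ ω ∂μ, ∃ t, 1 ≤ t ∧ ∀ a, 1 ≤ a → a ≤ n →
      ((∀ b ∈ {b | b ∈ B ∧ 2 ≤ b}, ω ∈ X b → ¬ b ∣ a) ↔
        ∀ b ∈ {b | b ∈ B ∧ 2 ≤ b}, ω ∈ X b → ¬ b ∣ a + t) := by
    intro n hn
    refine random_n hX hi (B := {b | b ∈ B ∧ 2 ≤ b}) (fun b hb => hb.2)
      (fun b hb c hc hne => hB.2 b hb.1 c hc.1 hne) (fun ε hε => ?_) n hn
    obtain ⟨b₀, hb₀⟩ := hp ε hε
    exact ⟨b₀, fun b hb hbb => hb₀ b hb.1 hbb⟩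
  have h' : ∀ᵐ ω ∂μ, ∀ n : ℕ, 1 ≤ n → ∃ t, 1 ≤ t ∧ ∀ a, 1 ≤ a → a ≤ n →
      ((∀ b ∈ {b | b ∈ B ∧ 2 ≤ b}, ω ∈ X b → ¬ b ∣ a) ↔
        ∀ b ∈ {b | b ∈ B ∧ 2 ≤ b}, ω ∈ X b → ¬ b ∣ a + t) := by
    rw [ae_all_iff]
    intro n
    by_cases hn : 1 ≤ n
    · filter_upwards [h n hn] with ω hω _ using hω
    · exact Filter.Eventually.of_forall fun ω h => absurd h hn
  filter_upwards [h'] with ω hω
  intro n hn
  obtain ⟨t, ht, hta⟩ := hω n hn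
  refine ⟨t, ht, fun a ha1 han => ?_⟩
  by_cases h1 : (1 : ℕ) ∈ B ∧ ω ∈ X 1
  · constructor
    · rintro ⟨_, h2⟩
      exact absurd (one_dvd a) (h2 1 h1)
    · rintro ⟨_, h2⟩
      exact absurd (one_dvd (a + t)) (h2 1 h1)
  · have key : ∀ m : ℕ, (∀ b ∈ {b | b ∈ B ∧ ω ∈ X b}, ¬ b ∣ m) ↔
        ∀ b ∈ {b | b ∈ B ∧ 2 ≤ b}, ω ∈ X b → ¬ b ∣ m := by
      intro m
      constructor
      · intro h2 b hb hωb
        exact h2 b ⟨hb.1, hωb⟩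
      · rintro h2 b ⟨hb, hωb⟩
        have hb1 : b ≠ 1 := by
          rintro rfl
          exact h1 ⟨hb, hωb⟩
        have := hB.1 b hb
        exact h2 b ⟨hb, by omega⟩ hωb
    have h3 : (∀ b ∈ {b | b ∈ B ∧ ω ∈ X b}, ¬ b ∣ a) ↔
        ∀ b ∈ {b | b ∈ B ∧ ω ∈ X b}, ¬ b ∣ a + t :=
      (key a).trans ((hta a ha1 han).trans (key (a + t)).symm)
    constructor
    · rintro ⟨_, h4⟩
      exact ⟨by omega, h3.mp h4⟩
    · rintro ⟨_, h4⟩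
      exact ⟨ha1, h3.mpr h4⟩

end Pool.Agent.H96R
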