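import Pool.Agent.H14Trans.Main

/-!
# Many pairwise disjoint families of moduli

For a pairwise coprime set `B` and `M` coprime to all elements of `B` above `n`, there are
arbitrarily large `u` and at least `u` positive integers `k ≤ u ^ c` for which the sets of elements
of `B` above `n` dividing some `M k + a`, `1 ≤ a ≤ n`, are pairwise disjoint and lie above `u`.
-/

set_option autoImplicit false

namespace Pool.Agent.H96R

open Finset Classical Pool.Agent.H14Trans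

/-- elements of `B` above `n` dividing `M k + a` for some `1 ≤ a ≤ n` -/
noncomputable def Dk (B : Set ℕ) (n M k : ℕ) : Finset ℕ :=
  (Ioc n (M * k + n)).filter (fun b => b ∈ B ∧ ∃ a ∈ Icc 1 n, b ∣ M * k + a)

lemma mem_Dk {B : Set ℕ} {n M k b : ℕ} : b ∈ Dk B n M k ↔
    n < b ∧ b ∈ B ∧ ∃ a, 1 ≤ a ∧ a ≤ n ∧ b ∣ M * k + a := by
  unfold Dk
  simp only [mem_filter, mem_Ioc, mem_Icc]
  constructor
  · rintro ⟨⟨h1, _⟩, h2, a, ⟨h3, h4⟩, h5⟩
    exact ⟨h1, h2, a, h3, h4, h5⟩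
  · rintro ⟨h1, h2, a, h3, h4, h5⟩
    refine ⟨⟨h1, ?_⟩, h2, a, ⟨h3, h4⟩, h5⟩
    exact (Nat.le_of_dvd (by omega) h5).trans (by omega)

theorem many (n : ℕ) (hn : 1 ≤ n) : ∃ c : ℕ, 1 ≤ c ∧ ∀ B : Set ℕ, (∀ b ∈ B, 2 ≤ b) →
    (∀ b ∈ B, ∀ c ∈ B, b ≠ c → b.Coprime c) → ∀ M : ℕ, 1 ≤ M → (∀ b ∈ B, n < b → M.Coprime b) →
    ∀ u₀ : ℕ, ∃ u : ℕ, u₀ ≤ u ∧ 1 ≤ u ∧ ∃ K : Finset ℕ, u ≤ #K ∧
      (∀ k ∈ K, 1 ≤ k ∧ M * k + n ≤ u ^ c ∧ ∀ b ∈ Dk B n M k, u < b) ∧
      (K : Set ℕ).PairwiseDisjoint (Dk B n M) := by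
  obtain ⟨s₁, hs₁, hF⟩ := fundamental n 16 (by norm_num)
  obtain ⟨J₀, hJ₀⟩ := hF (2 * n + 2) le_rfl
  set y₀ := 2 * n + 2 with hy₀
  refine ⟨4 * s₁ + 1, by omega, ?_⟩
  intro B hB2 hBc M hM1 hMcop u₀
  obtain ⟨C, hC⟩ := exists_nat_gt (2 * Real.exp (64 * n) * (2 * ((n : ℝ) + 1) + 1))
  set J := max J₀ (u₀ + M + n + C + 4 + 2 * n) with hJ
  have hJJ₀ : J₀ ≤ J := le_max_left _ _
  have hJbig : u₀ + M + n + C + 4 + 2 * n ≤ J := le_max_right _ _
  set u : ℕ := y₀ ^ (2 ^ J) with hu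
  have huJ : J < u := by
    calc J < 2 ^ J := Nat.lt_two_pow_self
      _ < 2 ^ (2 ^ J) := Nat.lt_two_pow_self
      _ ≤ u := Nat.pow_le_pow_left (by omega) _
  set w : ℕ := y₀ ^ (2 ^ (J + 2)) with hw
  have hwu : w = u ^ 4 := by
    rw [hw, hu, ← pow_mul, pow_add]
    norm_num
  have hu1 : 1 ≤ u := by omega
  have huw : u ≤ w := by
    rw [hwu]; exact Nat.le_self_pow (by norm_num) u
  set A : Finset ℕ := Icc 1 n with hA
  have hAn : ∀ a ∈ A, a ≤ n := fun a ha => (mem_Icc.mp ha).2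
  have hAcard : #A = n := by rw [hA]; simp
  set D : Finset ℕ := (Ioc n w).filter (fun b => b ∈ B) with hD
  have hDB : ∀ b ∈ D, b ∈ B ∧ n < b ∧ b ≤ w := fun b hb => by
    rw [hD, mem_filter, mem_Ioc] at hb; exact ⟨hb.2, hb.1.1, hb.1.2⟩
  have hgood : Good (bd M 0 A) (fun _ => n) D := by
    refine ⟨fun b hb => by have := (hDB b hb).2.1; omega, fun b _ s => bd_periodic M 0 A b s,
      fun b hb => ?_, fun b hb c hc' => ?_⟩
    · rw [card_bd hAn (hDB b hb).2.1 (hMcop b (hDB b hb).1 (hDB b hb).2.1), hAcard]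
    · exact hBc b (hDB b hb).1 c (hDB c hc').1
  have hmassD : ∀ (D' : Finset ℕ) (i : ℕ), D' ⊆ D → ∑ b ∈ lay y₀ D' i, (1 : ℝ) / b ≤ 16 := by
    intro D' i hsub
    refine mass_le (y := y₀ ^ (2 ^ i)) (fun b hb => hB2 b ?_)
      (fun b hb c hc' => hBc b ?_ c ?_) ?_ (fun b hb => ?_) (fun b hb => ?_)
    · exact (hDB b (hsub (mem_filter.mp hb).1)).1
    · exact (hDB b (hsub (mem_filter.mp hb).1)).1
    · exact (hDB c (hsub (mem_filter.mp hc').1)).1
    · calc 2 ≤ y₀ ^ 1 := by rw [pow_one]; omega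
        _ ≤ _ := Nat.pow_le_pow_right (by omega) Nat.one_le_two_pow
    · exact (mem_filter.mp hb).2.1
    · have h3 := (mem_filter.mp hb).2.2
      rwa [← pow_mul, ← pow_succ]
  -- the sieve at level `w`
  set V : ℝ := ∏ b ∈ D, (1 - ((n : ℕ) : ℝ) / b) with hV
  have hFL : ∀ N : ℕ, w ^ s₁ ≤ N →
      N * V / 2 ≤ (#((range N).filter (Sift (bd M 0 A) D)) : ℝ) := by
    have h1 := hJ₀ (J + 2) (by omega) (bd M 0 A) (fun _ => n) D hgood
      (fun b hb => ⟨le_rfl, (hDB b hb).2.1⟩) (fun b hb => (hDB b hb).2.2)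
      (fun i _ => hmassD D i (Finset.Subset.refl _))
    exact fun N hN => (h1.2 N hN).1
  -- the sieve at level `u`
  set D₁ : Finset ℕ := D.filter (fun b => b ≤ u) with hD₁
  have hV₁ : 1 ≤ (∏ b ∈ D₁, (1 - ((n : ℕ) : ℝ) / b)) * (u : ℝ) := by
    have h1 := hJ₀ J hJJ₀ (bd M 0 A) (fun _ => n) D₁ (hgood.mono (filter_subset _ _))
      (fun b hb => ⟨le_rfl, (hDB b (mem_filter.mp hb).1).2.1⟩) (fun b hb => (mem_filter.mp hb).2)
      (fun i _ => hmassD D₁ i (filter_subset _ _))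
    have h2 := h1.1
    rw [hu]
    push_cast
    exact h2
  -- the two last layers
  set D₂ : Finset ℕ := D.filter (fun b => ¬ b ≤ u) with hD₂
  have hsplit : V = (∏ b ∈ D₁, (1 - ((n : ℕ) : ℝ) / b)) * ∏ b ∈ D₂, (1 - ((n : ℕ) : ℝ) / b) := by
    rw [hV, hD₁, hD₂, prod_filter_mul_prod_filter_not]
  have hsum₂ : ∑ b ∈ D₂, (n : ℝ) / b ≤ 32 * n := by
    have hcov : D₂ ⊆ lay y₀ D J ∪ lay y₀ D (J + 1) := by
      intro b hb
      rw [hD₂, mem_filter] at hb
      rw [mem_union]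
      simp only [lay, mem_filter]
      by_cases h : b ≤ y₀ ^ (2 ^ (J + 1))
      · left; exact ⟨hb.1, by omega, h⟩
      · right; exact ⟨hb.1, by omega, (hDB b hb.1).2.2⟩
    calc ∑ b ∈ D₂, (n : ℝ) / b ≤ ∑ b ∈ lay y₀ D J ∪ lay y₀ D (J + 1), (n : ℝ) / b :=
          sum_le_sum_of_subset_of_nonneg hcov (fun b _ _ => by positivity)
      _ ≤ ∑ b ∈ lay y₀ D J, (n : ℝ) / b + ∑ b ∈ lay y₀ D (J + 1), (n : ℝ) / b := by
          rw [← sum_union_inter]
          have : 0 ≤ ∑ b ∈ lay y₀ D J ∩ lay y₀ D (J + 1), (n : ℝ) / b :=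
            sum_nonneg fun b _ => by positivity
          linarith
      _ = n * ∑ b ∈ lay y₀ D J, (1 : ℝ) / b + n * ∑ b ∈ lay y₀ D (J + 1), (1 : ℝ) / b := by
          rw [mul_sum, mul_sum]
          congr 1 <;> exact sum_congr rfl fun b _ => by rw [mul_one_div]
      _ ≤ n * 16 + n * 16 := by
          gcongr
          · exact hmassD D J (Finset.Subset.refl _)
          · exact hmassD D (J + 1) (Finset.Subset.refl _)
      _ = 32 * n := by ring
  have hV₂ : Real.exp (-(64 * n)) ≤ ∏ b ∈ D₂, (1 - ((n : ℕ) : ℝ) / b) := by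
    refine le_trans (Real.exp_le_exp.mpr ?_) (prod_ge_exp (fun b hb => by positivity)
      (fun b hb => ?_))
    · linarith
    · rw [hD₂, mem_filter] at hb
      have h1 : 2 * n ≤ b := by omega
      have h2 : (2 : ℝ) * n ≤ b := by exact_mod_cast h1
      have h3 : (0 : ℝ) < b := by
        have : 0 < b := by omega
        exact_mod_cast this
      rw [div_le_iff₀ h3]
      linarith
  have huR : (0 : ℝ) < u := by exact_mod_cast hu1
  have hVlow : Real.exp (-(64 * n)) ≤ V * u := by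
    have h1 : (0 : ℝ) < Real.exp (-(64 * n)) := Real.exp_pos _
    rw [hsplit]
    calc Real.exp (-(64 * n)) = 1 * Real.exp (-(64 * n)) := by ring
      _ ≤ ((∏ b ∈ D₁, (1 - ((n : ℕ) : ℝ) / b)) * (u : ℝ)) *
          ∏ b ∈ D₂, (1 - ((n : ℕ) : ℝ) / b) := by gcongr
      _ = _ := by ring
  -- the sifted set
  set X : ℕ := w ^ s₁ with hX
  have hXu : X = u ^ (4 * s₁) := by rw [hX, hwu, ← pow_mul]
  set G : Finset ℕ := ((range X).filter (Sift (bd M 0 A) D)).erase 0 with hG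
  set L : ℕ := u ^ 3 with hL
  have hL1 : 1 ≤ L := Nat.one_le_pow _ _ (by omega)
  have hXL : X / L = u ^ (4 * s₁ - 3) := by
    rw [hXu, hL]
    refine Nat.div_eq_of_eq_mul_left (by positivity) ?_
    rw [← pow_add]
    congr 1
    omega
  set T : Finset (ℕ × ℕ) := range (X / L + 1) ×ˢ range (n + 1) with hT
  have hTcard : #T = (u ^ (4 * s₁ - 3) + 1) * (n + 1) := by
    rw [hT, card_product, card_range, card_range, hXL]
  have hcount : #T * u ≤ #G := by
    have h1 := hFL X le_rfl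
    have h2 : #((range X).filter (Sift (bd M 0 A) D)) ≤ #G + 1 := by
      have := pred_card_le_card_erase (s := (range X).filter (Sift (bd M 0 A) D)) (a := 0)
      rw [hG]
      omega
    have h3 : (#((range X).filter (Sift (bd M 0 A) D)) : ℝ) ≤ (#G : ℝ) + 1 := by
      exact_mod_cast h2
    have h4 : (X : ℝ) * V / 2 ≤ (#G : ℝ) + 1 := h1.trans h3
    have hXR : (X : ℝ) = (u : ℝ) ^ (4 * s₁ - 2) * (u * u) := by
      rw [hXu]
      push_cast
      rw [← pow_two, ← pow_add]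
      congr 1
      omega
    have hP1 : (1 : ℝ) ≤ (u : ℝ) ^ (4 * s₁ - 3) := one_le_pow₀ (by exact_mod_cast hu1)
    have hP2 : (u : ℝ) ^ (4 * s₁ - 2) = (u : ℝ) ^ (4 * s₁ - 3) * u := by
      rw [← pow_succ]; congr 1; omega
    set P : ℝ := (u : ℝ) ^ (4 * s₁ - 3) with hP
    have hTR : ((#T * u : ℕ) : ℝ) ≤ 2 * (n + 1) * (P * u) := by
      rw [hTcard]
      push_cast
      have : (P + 1) ≤ 2 * P := by linarith
      calc (P + 1) * ((n : ℝ) + 1) * u ≤ (2 * P) * ((n : ℝ) + 1) * u := by gcongr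
        _ = 2 * (n + 1) * (P * u) := by ring
    have huC : 2 * Real.exp (64 * n) * (2 * ((n : ℝ) + 1) + 1) ≤ u := by
      have : (C : ℝ) ≤ u := by exact_mod_cast (by omega : C ≤ u)
      linarith
    have hkey : (2 * ((n : ℝ) + 1) + 1) ≤ u * Real.exp (-(64 * n)) / 2 := by
      rw [Real.exp_neg, ← div_eq_mul_inv, div_div, le_div_iff₀ (by positivity)]
      linarith
    have hPu : (1 : ℝ) ≤ P * u := by
      have : (1 : ℝ) ≤ u := by exact_mod_cast hu1
      nlinarith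
    have h5 : (2 * ((n : ℝ) + 1) + 1) * (P * u) ≤ (X : ℝ) * V / 2 := by
      calc (2 * ((n : ℝ) + 1) + 1) * (P * u) ≤ (u * Real.exp (-(64 * n)) / 2) * (P * u) := by
            gcongr
        _ ≤ (u * (V * u) / 2) * (P * u) := by gcongr
        _ = (X : ℝ) * V / 2 := by rw [hXR, hP2]; ring
    have h6 : ((#T * u : ℕ) : ℝ) ≤ (#G : ℝ) := by nlinarith
    exact_mod_cast h6
  have hmaps : ∀ k ∈ G, (fun k => (k / L, k % (n + 1))) k ∈ T := by
    intro k hk
    rw [hG, mem_erase, mem_filter, mem_range] at hk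
    rw [hT, mem_product, mem_range, mem_range]
    exact ⟨Nat.lt_succ_of_le (Nat.div_le_div_right hk.2.1.le), Nat.mod_lt _ (by omega)⟩
  obtain ⟨y, _, hy⟩ := exists_le_card_fiber_of_mul_le_card_of_maps_to hmaps
    ⟨(0, 0), by rw [hT, mem_product, mem_range, mem_range]; exact ⟨by omega, by omega⟩⟩ hcount
  have hbigD : ∀ k ∈ G, ∀ b ∈ Dk B n M k, w < b := by
    intro k hk b hb
    rw [mem_Dk] at hb
    obtain ⟨h1, h2, a, h3, h4, h5⟩ := hb
    by_contra hcon
    push Not at hcon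
    rw [hG, mem_erase, mem_filter] at hk
    refine hk.2.2 b ?_ ⟨a, ?_, ?_⟩
    · rw [hD, mem_filter, mem_Ioc]; exact ⟨⟨h1, hcon⟩, h2⟩
    · rw [hA, mem_Icc]; exact ⟨h3, h4⟩
    · rw [Nat.zero_add]; exact h5
  refine ⟨u, by omega, hu1, G.filter (fun k => (k / L, k % (n + 1)) = y), hy, ?_, ?_⟩
  · intro k hk
    rw [mem_filter] at hk
    have hk' := hk.1
    rw [hG, mem_erase, mem_filter, mem_range] at hk'
    refine ⟨by omega, ?_, fun b hb => lt_of_le_of_lt huw (hbigD k hk.1 b hb)⟩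
    have hX1 : 1 ≤ X := Nat.one_le_pow _ _ (by omega)
    calc M * k + n ≤ M * X + n * X := by
          have h1 : M * k ≤ M * X := Nat.mul_le_mul_left _ hk'.2.1.le
          have h2 : n ≤ n * X := Nat.le_mul_of_pos_right _ hX1
          omega
      _ = X * (M + n) := by ring
      _ ≤ X * u := Nat.mul_le_mul_left _ (by omega)
      _ = u ^ (4 * s₁ + 1) := by rw [hXu, pow_succ]
  · -- disjointness
    have key : ∀ k ∈ G, ∀ k' ∈ G, k < k' → k / L = k' / L → k % (n + 1) = k' % (n + 1) →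
        Disjoint (Dk B n M k) (Dk B n M k') := by
      intro k hk k' hk' hlt h1 h2
      rw [disjoint_left]
      intro b hb hb'
      have hwb := hbigD k hk b hb
      rw [mem_Dk] at hb hb'
      obtain ⟨_, _, a, ha1, ha2, ha3⟩ := hb
      obtain ⟨_, _, a', ha1', ha2', ha3'⟩ := hb'
      have hsub : n + 1 ∣ k' - k := (Nat.modEq_iff_dvd' hlt.le).mp h2
      have hge : n + 1 ≤ k' - k := Nat.le_of_dvd (by omega) hsub
      have hltL : k' - k < L := by
        have e1 := Nat.div_add_mod k L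
        have e2 := Nat.div_add_mod k' L
        have e3 := Nat.mod_lt k' (show 0 < L by omega)
        rw [← h1] at e2
        omega
      obtain ⟨d, hd⟩ : ∃ d, k' = k + d := ⟨k' - k, by omega⟩
      have hdge : n + 1 ≤ d := by omega
      have hdL : d < L := by omega
      have hMd : n + 1 ≤ M * d := le_trans hdge (Nat.le_mul_of_pos_left _ hM1)
      have hdvd : b ∣ (M * k' + a') - (M * k + a) := Nat.dvd_sub ha3' ha3
      have heq : (M * k' + a') - (M * k + a) = M * d + a' - a := by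
        rw [hd, Nat.mul_add]; omega
      rw [heq] at hdvd
      have hpos : 0 < M * d + a' - a := by omega
      have hle := Nat.le_of_dvd hpos hdvd
      have h3 : M * d + n ≤ w := by
        calc M * d + n ≤ M * L + n * L := by
              have h1 : M * d ≤ M * L := Nat.mul_le_mul_left _ hdL.le
              have h2 : n ≤ n * L := Nat.le_mul_of_pos_right _ hL1
              omega
          _ = L * (M + n) := by ring
          _ ≤ L * u := Nat.mul_le_mul_left _ (by omega)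
          _ = w := by rw [hwu, hL]; ring
      omega
    intro k hk k' hk' hne
    simp only [coe_filter, Set.mem_ofPred_eq] at hk hk'
    have e1 : k / L = k' / L := by
      have := hk.2.trans hk'.2.symm
      exact congrArg Prod.fst this
    have e2 : k % (n + 1) = k' % (n + 1) := by
      have := hk.2.trans hk'.2.symm
      exact congrArg Prod.snd this
    rcases lt_or_gt_of_ne hne with h | h
    · exact key k hk.1 k' hk'.1 h e1 e2
    · exact (key k' hk'.1 k hk.1 h e1.symm e2.symm).symm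

end Pool.Agent.H96R
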