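import Pool.Agent.H96R.Many

/-!
# Random subsets of a pairwise coprime set
-/

set_option autoImplicit false

namespace Pool.Agent.H96R

open Finset Classical MeasureTheory ProbabilityTheory

section prob

variable {Ω : Type*} [MeasurableSpace Ω] {μ : Measure Ω} [IsProbabilityMeasure μ]

/-- `ω` lies in no `X b`, `b ∈ F` -/
def Miss (X : ℕ → Set Ω) (F : Finset ℕ) : Set Ω := ⋂ b ∈ F, (X b)ᶜ

lemma miss_meas {X : ℕ → Set Ω} (hX : ∀ b, MeasurableSet (X b)) (F : Finset ℕ) :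
    MeasurableSet (Miss X F) :=
  F.measurableSet_biInter fun b _ => (hX b).compl

omit [IsProbabilityMeasure μ] in
lemma miss_measure {X : ℕ → Set Ω} (hi : iIndepSet X μ) (F : Finset ℕ) :
    μ (Miss X F) = ∏ b ∈ F, μ (X b)ᶜ := by
  have h : iIndep (fun i => MeasurableSpace.generateFrom {X i}) μ := iIndepSet_iff_iIndep _ _ |>.mp hi
  exact h.meas_biInter (S := F) (s := fun b => (X b)ᶜ)
    (fun b _ => (MeasurableSpace.measurableSet_generateFrom (Set.mem_singleton (X b))).compl)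

lemma miss_indep {X : ℕ → Set Ω} (hX : ∀ b, MeasurableSet (X b)) (hi : iIndepSet X μ)
    (K : Finset ℕ) (D : ℕ → Finset ℕ) (hD : (K : Set ℕ).PairwiseDisjoint D) :
    iIndepSet (fun k : K => Miss X (D k)) μ := by
  rw [iIndepSet_iff_meas_biInter (fun k => miss_meas hX _)]
  intro s
  have h1 : ⋂ i ∈ s, Miss X (D i) = Miss X (s.biUnion (fun k => D k)) := by
    ext ω
    simp only [Miss, Set.mem_iInter, mem_biUnion]
    constructor
    · rintro h b ⟨k, hk, hb⟩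
      exact h k hk b hb
    · intro h k hk b hb
      exact h b ⟨k, hk, hb⟩
  rw [h1, miss_measure hi, prod_biUnion]
  · exact prod_congr rfl fun k _ => (miss_measure hi _).symm
  · intro k _ k' _ hne
    exact hD k.2 k'.2 (fun h => hne (Subtype.ext h))

lemma prob_part {X : ℕ → Set Ω} (hX : ∀ b, MeasurableSet (X b)) (hi : iIndepSet X μ)
    (K : Finset ℕ) (D : ℕ → Finset ℕ) (hD : (K : Set ℕ).PairwiseDisjoint D) (p : ℝ)
    (hp : ∀ k ∈ K, p ≤ ∏ b ∈ D k, μ.real (X b)ᶜ) :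
    μ.real (⋂ k ∈ K, (Miss X (D k))ᶜ) ≤ Real.exp (-(p * #K)) := by
  have h1 : ⋂ k ∈ K, (Miss X (D k))ᶜ = ⋂ k ∈ (univ : Finset K), (Miss X (D k))ᶜ := by
    ext ω
    simp
  have h2 : iIndep (fun k : K => MeasurableSpace.generateFrom {Miss X (D k)}) μ :=
    (iIndepSet_iff_iIndep _ _).mp (miss_indep hX hi K D hD)
  have h3 := h2.meas_biInter (S := univ) (s := fun k : K => (Miss X (D k))ᶜ)
    (fun k _ => (MeasurableSpace.measurableSet_generateFrom
      (Set.mem_singleton (Miss X (D k)))).compl)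
  have h4 : ∀ k : K, μ.real (Miss X (D k))ᶜ ≤ Real.exp (-p) := by
    intro k
    rw [probReal_compl_eq_one_sub (miss_meas hX _)]
    have h5 : μ.real (Miss X (D k)) = ∏ b ∈ D k, μ.real (X b)ᶜ := by
      simp only [Measure.real]
      rw [miss_measure hi, ENNReal.toReal_prod]
    have h6 := hp k k.2
    have h7 := Real.add_one_le_exp (-p)
    rw [h5]
    linarith
  rw [h1]
  have h5 : μ.real (⋂ k ∈ (univ : Finset K), (Miss X (D k))ᶜ) =
      ∏ k : K, μ.real (Miss X (D k))ᶜ := by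
    simp only [Measure.real]
    rw [h3, ENNReal.toReal_prod]
  rw [h5]
  calc ∏ k : K, μ.real (Miss X (D k))ᶜ ≤ ∏ _k : K, Real.exp (-p) :=
        prod_le_prod (fun k _ => measureReal_nonneg) (fun k _ => h4 k)
    _ = Real.exp (-(p * #K)) := by
        rw [prod_const, card_univ, Fintype.card_coe, ← Real.exp_nat_mul]
        congr 1
        ring

end prob

/-- the product of the elements of `Dk` is small -/
lemma prod_Dk_le {B : Set ℕ} (hBc : ∀ b ∈ B, ∀ c ∈ B, b ≠ c → b.Coprime c) (n M k : ℕ) :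
    ∏ b ∈ Dk B n M k, b ≤ (M * k + n) ^ n := by
  have h1 : ∏ b ∈ Dk B n M k, b ∣ ∏ a ∈ Icc 1 n, (M * k + a) := by
    refine Finset.prod_dvd_of_isRelPrime (s := fun b => b) ?_ ?_
    · intro b hb c hc hne
      simp only [mem_coe, mem_Dk] at hb hc
      exact Nat.coprime_iff_isRelPrime.mp (hBc b hb.2.1 c hc.2.1 hne)
    · intro b hb
      rw [mem_Dk] at hb
      obtain ⟨_, _, a, h1, h2, h3⟩ := hb
      exact h3.trans (dvd_prod_of_mem (fun a => M * k + a) (mem_Icc.mpr ⟨h1, h2⟩))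
  have h2 : 0 < ∏ a ∈ Icc 1 n, (M * k + a) :=
    Finset.prod_pos fun a ha => by rw [mem_Icc] at ha; omega
  calc ∏ b ∈ Dk B n M k, b ≤ ∏ a ∈ Icc 1 n, (M * k + a) := Nat.le_of_dvd h2 h1
    _ ≤ ∏ _a ∈ Icc 1 n, (M * k + n) := prod_le_prod' fun a ha => by
        rw [mem_Icc] at ha; omega
    _ = (M * k + n) ^ n := by rw [prod_const]; simp

/-- The translates for one `n`, for moduli `≥ 2`. -/
theorem random_n {Ω : Type*} [MeasurableSpace Ω] {μ : Measure Ω} [IsProbabilityMeasure μ]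
    {X : ℕ → Set Ω} (hX : ∀ b, MeasurableSet (X b)) (hi : iIndepSet X μ) {B : Set ℕ}
    (hB2 : ∀ b ∈ B, 2 ≤ b) (hBc : ∀ b ∈ B, ∀ c ∈ B, b ≠ c → b.Coprime c)
    (hp : ∀ ε : ℝ, 0 < ε → ∃ b₀ : ℕ, ∀ b ∈ B, b₀ ≤ b → (b : ℝ) ^ (-ε) ≤ μ.real (X b)ᶜ)
    (n : ℕ) (hn : 1 ≤ n) :
    ∀ᵐ ω ∂μ, ∃ t, 1 ≤ t ∧ ∀ a, 1 ≤ a → a ≤ n →
      ((∀ b ∈ B, ω ∈ X b → ¬ b ∣ a) ↔ ∀ b ∈ B, ω ∈ X b → ¬ b ∣ a + t) := by
  obtain ⟨c, hc1, hmany⟩ := many n hn
  -- the modulus
  set M : ℕ := ∏ b ∈ (Icc 1 n).filter (fun b => b ∈ B), b with hM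
  have hM1 : 1 ≤ M := by
    refine Nat.succ_le_of_lt (Finset.prod_pos fun b hb => ?_)
    have h1 := (mem_filter.mp hb).1
    rw [mem_Icc] at h1
    omega
  have hMcop : ∀ b ∈ B, n < b → M.Coprime b := by
    intro b hb hnb
    refine Nat.Coprime.prod_left fun c hc => ?_
    rw [mem_filter, mem_Icc] at hc
    exact hBc c hc.2 b hb (by omega)
  have hMdvd : ∀ b ∈ B, b ≤ n → b ∣ M := by
    intro b hb hbn
    refine dvd_prod_of_mem (fun b => b) ?_
    rw [mem_filter, mem_Icc]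
    exact ⟨⟨by have := hB2 b hb; omega, hbn⟩, hb⟩
  -- reduction
  have hred : ∀ ω : Ω, ∀ k : ℕ, 1 ≤ k → ω ∈ Miss X (Dk B n M k) → ∃ t, 1 ≤ t ∧
      ∀ a, 1 ≤ a → a ≤ n →
      ((∀ b ∈ B, ω ∈ X b → ¬ b ∣ a) ↔ ∀ b ∈ B, ω ∈ X b → ¬ b ∣ a + t) := by
    intro ω k hk hω
    refine ⟨M * k, Nat.mul_pos hM1 hk, fun a ha1 han => ?_⟩
    constructor
    · intro haB b hb hωb hdvd
      by_cases hbn : b ≤ n
      · have h1 : b ∣ M * k := (hMdvd b hb hbn).mul_right k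
        exact haB b hb hωb ((Nat.dvd_add_iff_left h1).mpr hdvd)
      · push Not at hbn
        have hmem : b ∈ Dk B n M k := by
          rw [mem_Dk]
          exact ⟨hbn, hb, a, ha1, han, by rw [Nat.add_comm]; exact hdvd⟩
        simp only [Miss, Set.mem_iInter] at hω
        exact hω b hmem hωb
    · intro haB b hb hωb hdvd
      have hba : b ≤ a := Nat.le_of_dvd (by omega) hdvd
      have h1 : b ∣ M * k := (hMdvd b hb (by omega)).mul_right k
      exact haB b hb hωb (hdvd.add h1)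
  -- the probability
  rw [ae_iff]
  set Bad : Set Ω := {ω | ¬ ∃ t, 1 ≤ t ∧ ∀ a, 1 ≤ a → a ≤ n →
      ((∀ b ∈ B, ω ∈ X b → ¬ b ∣ a) ↔ ∀ b ∈ B, ω ∈ X b → ¬ b ∣ a + t)} with hBad
  have hn0 : (0 : ℝ) < n := by exact_mod_cast hn
  have hc0 : (0 : ℝ) < c := by exact_mod_cast hc1
  obtain ⟨b₀, hb₀⟩ := hp (1 / (2 * (c * n))) (by positivity)
  have hmain : ∀ u₀ : ℕ, ∃ u : ℕ, u₀ ≤ u ∧ 1 ≤ u ∧ μ.real Bad ≤ Real.exp (-((u : ℝ) ^ (1 / 2 : ℝ))) := by
    intro u₀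
    obtain ⟨u, hu, hu1, K, hK, hKp, hKd⟩ := hmany B hB2 hBc M hM1 hMcop (max u₀ b₀)
    refine ⟨u, (le_max_left _ _).trans hu, hu1, ?_⟩
    have hu1R : (1 : ℝ) ≤ u := by exact_mod_cast hu1
    have hu0R : (0 : ℝ) < u := by linarith
    have hpk : ∀ k ∈ K, (u : ℝ) ^ (-(1 / 2 : ℝ)) ≤ ∏ b ∈ Dk B n M k, μ.real (X b)ᶜ := by
      intro k hk
      obtain ⟨_, h2, h3⟩ := hKp k hk
      have h4 := prod_Dk_le hBc n M k
      have h5 : ((∏ b ∈ Dk B n M k, b : ℕ) : ℝ) ≤ (u : ℝ) ^ (c * n) := by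
        have h6 : ∏ b ∈ Dk B n M k, b ≤ u ^ (c * n) :=
          h4.trans (by rw [pow_mul]; exact Nat.pow_le_pow_left h2 n)
        exact_mod_cast h6
      have h7 : (0 : ℝ) < ((∏ b ∈ Dk B n M k, b : ℕ) : ℝ) := by
        have : 0 < ∏ b ∈ Dk B n M k, b := Finset.prod_pos fun b hb => by
          have := (mem_Dk.mp hb).1; omega
        exact_mod_cast this
      calc (u : ℝ) ^ (-(1 / 2 : ℝ)) = ((u : ℝ) ^ (c * n)) ^ (-(1 / (2 * ((c : ℝ) * n)))) := by
            rw [← Real.rpow_natCast, ← Real.rpow_mul hu0R.le]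
            congr 1
            push_cast
            field_simp
        _ ≤ ((∏ b ∈ Dk B n M k, b : ℕ) : ℝ) ^ (-(1 / (2 * ((c : ℝ) * n)))) :=
            Real.rpow_le_rpow_of_nonpos h7 h5 (by
              have : 0 < 1 / (2 * ((c : ℝ) * n)) := by positivity
              linarith)
        _ = ∏ b ∈ Dk B n M k, (b : ℝ) ^ (-(1 / (2 * ((c : ℝ) * n)))) := by
            push_cast
            rw [Real.finsetProd_rpow _ _ (fun b _ => by positivity)]
        _ ≤ ∏ b ∈ Dk B n M k, μ.real (X b)ᶜ := by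
            refine prod_le_prod (fun b _ => by positivity) (fun b hb => ?_)
            have h8 := h3 b hb
            exact hb₀ b (mem_Dk.mp hb).2.1 (((le_max_right _ _).trans hu).trans h8.le)
    have hsub : Bad ⊆ ⋂ k ∈ K, (Miss X (Dk B n M k))ᶜ := by
      intro ω hω
      simp only [Set.mem_iInter]
      intro k hk hmiss
      exact hω (hred ω k (hKp k hk).1 hmiss)
    have h1 := prob_part hX hi K (Dk B n M) hKd _ hpk
    refine (measureReal_mono hsub (measure_ne_top _ _)).trans (h1.trans (Real.exp_le_exp.mpr ?_))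
    have h2 : (u : ℝ) ≤ #K := by exact_mod_cast hK
    have h3 : (u : ℝ) ^ (1 / 2 : ℝ) = (u : ℝ) ^ (-(1 / 2 : ℝ)) * u := by
      nth_rewrite 3 [← Real.rpow_one (u : ℝ)]
      rw [← Real.rpow_add hu0R]
      norm_num
    rw [h3]
    have h4 : 0 < (u : ℝ) ^ (-(1 / 2 : ℝ)) := Real.rpow_pos_of_pos hu0R _
    nlinarith
  have hzero : μ.real Bad ≤ 0 := by
    refine le_of_forall_pos_le_add fun ε hε => ?_
    obtain ⟨N, hN⟩ := exists_nat_gt (1 / ε)
    obtain ⟨u, hu, hu1, h⟩ := hmain (N ^ 2)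
    have hN0 : (0 : ℝ) < N := lt_trans (by positivity) hN
    have h1 : (N : ℝ) ≤ (u : ℝ) ^ (1 / 2 : ℝ) := by
      have h2 : ((N : ℝ) ^ 2) ≤ u := by exact_mod_cast hu
      calc (N : ℝ) = ((N : ℝ) ^ 2) ^ (1 / 2 : ℝ) := by
            rw [← Real.sqrt_eq_rpow, Real.sqrt_sq hN0.le]
        _ ≤ _ := Real.rpow_le_rpow (by positivity) h2 (by norm_num)
    have h2 : Real.exp (-((u : ℝ) ^ (1 / 2 : ℝ))) ≤ Real.exp (-(N : ℝ)) :=
      Real.exp_le_exp.mpr (by linarith)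
    have h3 : Real.exp (-(N : ℝ)) ≤ 1 / N := by
      rw [Real.exp_neg, ← one_div]
      refine one_div_le_one_div_of_le hN0 ?_
      linarith [Real.add_one_le_exp (N : ℝ)]
    have h4 : 1 / (N : ℝ) ≤ ε := by
      rw [div_le_iff₀ hN0]
      rw [div_lt_iff₀ hε] at hN
      linarith
    linarith
  have hz : μ.real Bad = 0 := le_antisymm hzero measureReal_nonneg
  exact (measureReal_eq_zero_iff (measure_ne_top _ _)).mp hz

end Pool.Agent.H96R
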